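import Pool.Agent.N139.AS.Hnn

/-!
# Project AS, FINP: the part where the kernel of the folding map acts trivially
-/

set_option autoImplicit false

namespace Pool.Agent.N346.AS

open Filter Topology Equiv
open Pool.Agent.N139.AS
open Pool.Agent.H698R3 Pool.Agent.H698R3.Amalg

/-! ### Counting -/

section count

variable {X : Type} [Fintype X]

theorem ct_def (P : X → Prop) [DecidablePred P] : ct P = ((Finset.univ.filter P).card : ℝ) := by
  unfold ct
  congr

theorem ct_eq (P : X → Prop) : ct P = Nat.card {x // P x} := by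
  classical
  rw [ct_def, Nat.card_eq_fintype_card, Fintype.card_subtype]

theorem ct_nonneg (P : X → Prop) : 0 ≤ ct P := Nat.cast_nonneg _

theorem ct_mono {P Q : X → Prop} (h : ∀ x, P x → Q x) : ct P ≤ ct Q := by
  classical
  unfold ct
  exact_mod_cast Finset.card_le_card fun x hx =>
    Finset.mem_filter.2 ⟨Finset.mem_univ x, h x (Finset.mem_filter.1 hx).2⟩

theorem ct_le_card (P : X → Prop) : ct P ≤ Fintype.card X := by
  classical
  unfold ct
  exact_mod_cast Finset.card_le_univ _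

theorem ct_or (P Q : X → Prop) : ct (fun x => P x ∨ Q x) ≤ ct P + ct Q := by
  classical
  rw [ct_def, ct_def, ct_def, Finset.filter_or]
  exact_mod_cast Finset.card_union_le _ _

theorem ct_ex {ι : Type} [Fintype ι] (P : ι → X → Prop) :
    ct (fun x => ∃ i, P i x) ≤ ∑ i, ct (P i) := by
  classical
  rw [ct_def, Finset.sum_congr rfl fun i _ => ct_def (P i)]
  have h : (Finset.univ.filter fun x => ∃ i, P i x) ⊆
      Finset.univ.biUnion fun i => Finset.univ.filter (P i) := by
    intro x hx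
    obtain ⟨i, hi⟩ := (Finset.mem_filter.1 hx).2
    exact Finset.mem_biUnion.2 ⟨i, Finset.mem_univ i,
      Finset.mem_filter.2 ⟨Finset.mem_univ x, hi⟩⟩
  exact_mod_cast (Finset.card_le_card h).trans Finset.card_biUnion_le

theorem ct_perm (e : Perm X) (P : X → Prop) : ct (fun x => P (e x)) = ct P := by
  rw [ct_eq, ct_eq]
  congr 1
  exact Nat.card_congr (e.subtypeEquiv fun x => Iff.rfl)

theorem ct_sub (Y : X → Prop) [Fintype {x // Y x}] (P : X → Prop) :
    ct (fun x : {x // Y x} => P x) = ct (fun x => Y x ∧ P x) := by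
  rw [ct_eq, ct_eq]
  congr 1
  exact Nat.card_congr (Equiv.subtypeSubtypeEquivSubtypeInter Y P)

theorem card_sub (Y : X → Prop) [Fintype {x // Y x}] :
    (Fintype.card {x // Y x} : ℝ) = ct Y := by
  rw [ct_eq, Nat.card_eq_fintype_card]

theorem hd_mul [DecidableEq X] (σ τ : Perm X) :
    Stab.hammingDist σ τ * Fintype.card X = ct (fun x => σ x ≠ τ x) := by
  classical
  unfold Stab.hammingDist
  rcases Nat.eq_zero_or_pos (Fintype.card X) with h0 | hk
  · have h1 := ct_le_card (fun x => σ x ≠ τ x)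
    rw [h0, Nat.cast_zero] at h1 ⊢
    rw [mul_zero]
    exact le_antisymm (ct_nonneg _) h1
  · have : (0 : ℝ) < Fintype.card X := by exact_mod_cast hk
    rw [div_mul_cancel₀ _ this.ne']
    unfold ct
    congr

end count

/-- A permutation induces a permutation of a subset that agrees with it where possible. -/
theorem exists_ext' {X : Type} [Finite X] (σ : Perm X) (Y : X → Prop) :
    ∃ τ : Perm {x // Y x}, ∀ x, Y (σ x.1) → (τ x).1 = σ x.1 := by
  classical
  let e : {x : {x // Y x} // Y (σ x.1)} ≃ {x : {x // Y x} // Y (σ.symm x.1)} :=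
    { toFun := fun x => ⟨⟨σ x.1.1, x.2⟩, by
        show Y (σ.symm (σ x.1.1)); rw [Equiv.symm_apply_apply]; exact x.1.2⟩
      invFun := fun x => ⟨⟨σ.symm x.1.1, x.2⟩, by
        show Y (σ (σ.symm x.1.1)); rw [Equiv.apply_symm_apply]; exact x.1.2⟩
      left_inv := by rintro ⟨⟨y, hy⟩, hy'⟩; simp
      right_inv := by rintro ⟨⟨y, hy⟩, hy'⟩; simp }
  refine ⟨e.extendSubtype, fun x hx => ?_⟩
  rw [Equiv.extendSubtype_apply_of_mem e x hx]
  rfl

/-! ### Quantitative stability of the HNN extension by an automorphism -/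

section quant

variable {F : Type} [Group F]

/-- the HNN extension by an automorphism -/
abbrev Gam (s : MulAut F) : Type :=
  HNNExtension F ⊤ ⊤ (Subgroup.topEquiv.trans (s.trans Subgroup.topEquiv.symm))

theorem gam_rel (s : MulAut F) (y : F) : (HNNExtension.t : Gam s) * HNNExtension.of y =
    HNNExtension.of (s y) * HNNExtension.t :=
  HNNExtension.t_mul_of (φ := Subgroup.topEquiv.trans (s.trans Subgroup.topEquiv.symm))
    (⟨y, trivial⟩ : (⊤ : Subgroup F))

theorem gam_lift (s : MulAut F) {H : Type} [Group H] (a : F →* H) (x : H)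
    (h : ∀ y, x * a y = a (s y) * x) :
    ∃ L : Gam s →* H, L HNNExtension.t = x ∧ ∀ y, L (HNNExtension.of y) = a y :=
  ⟨HNNExtension.lift a x (fun y => h y), HNNExtension.lift_t _ _ _,
    fun _ => HNNExtension.lift_of _ _ _ _⟩

/-- sequences of permutations which are asymptotically trivial -/
noncomputable def Nul (X : ℕ → Type) [∀ n, Fintype (X n)] [∀ n, DecidableEq (X n)] :
    Subgroup (∀ n, Perm (X n)) where
  carrier := {x | Tendsto (fun n => Stab.hammingDist (x n) 1) atTop (𝓝 0)}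
  mul_mem' := by
    intro x y hx hy
    refine squeeze_zero (fun n => Stab.hammingDist_nonneg _ _)
      (fun n => Stab.hammingDist_mul_le (x n) (y n)) ?_
    have := hx.add hy
    rwa [add_zero] at this
  one_mem' := by
    show Tendsto (fun n => Stab.hammingDist ((1 : ∀ n, Perm (X n)) n) 1) atTop (𝓝 0)
    refine tendsto_const_nhds.congr fun n => ?_
    exact (Stab.hammingDist_self _).symm
  inv_mem' := by
    intro x hx
    refine Tendsto.congr (fun n => ?_) hx
    exact (Stab.hammingDist_inv (x n)).symm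

instance (X : ℕ → Type) [∀ n, Fintype (X n)] [∀ n, DecidableEq (X n)] : (Nul X).Normal := by
  refine ⟨fun x hx g => ?_⟩
  refine Tendsto.congr (fun n => ?_) hx
  exact (Stab.hammingDist_conj (g n) (x n)).symm

theorem mk_eq_iff {X : ℕ → Type} [∀ n, Fintype (X n)] [∀ n, DecidableEq (X n)]
    (x y : ∀ n, Perm (X n)) : (QuotientGroup.mk' (Nul X) x = QuotientGroup.mk' (Nul X) y) ↔
      Tendsto (fun n => Stab.hammingDist (x n) (y n)) atTop (𝓝 0) := by
  rw [QuotientGroup.mk'_apply, QuotientGroup.mk'_apply, QuotientGroup.eq]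
  show Tendsto (fun n => Stab.hammingDist ((x n)⁻¹ * y n) 1) atTop (𝓝 0) ↔ _
  have h : ∀ n, Stab.hammingDist ((x n)⁻¹ * y n) 1 = Stab.hammingDist (x n) (y n) := by
    intro n
    rw [← Stab.hammingDist_mul_left (x n) ((x n)⁻¹ * y n) 1, mul_inv_cancel_left, mul_one,
      Stab.hammingDist_comm]
  rw [tendsto_congr h]

theorem quant [Finite F] (s : MulAut F) (hS : PermutationStable (Gam s)) (ε : ℝ) (hε : 0 < ε) :
    ∃ δ : ℝ, 0 < δ ∧ ∀ (X : Type) [Fintype X] (a : F →* Perm X) (t0 : Perm X),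
      ct (fun x => ∃ y, t0 (a y x) ≠ a (s y) (t0 x)) ≤ δ * Fintype.card X →
      ∃ θ : Gam s →* Perm X, ct (fun x => θ HNNExtension.t x ≠ t0 x ∨
        ∃ y, θ (HNNExtension.of y) x ≠ a y x) ≤ ε * Fintype.card X := by
  classical
  have := Fintype.ofFinite F
  by_contra hcon
  push Not at hcon
  choose X iX a t0 h1 h2 using fun n : ℕ => hcon (1 / ((n : ℝ) + 1)) (by positivity)
  have hcard : ∀ n, (0 : ℝ) < Fintype.card (X n) := by
    intro n
    rcases Nat.eq_zero_or_pos (Fintype.card (X n)) with h0 | h0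
    · exfalso
      have h3 := h2 n 1
      have h4 := ct_le_card (fun x => (1 : Gam s →* Perm (X n)) HNNExtension.t x ≠ t0 n x ∨
        ∃ y, (1 : Gam s →* Perm (X n)) (HNNExtension.of y) x ≠ a n y x)
      rw [h0, Nat.cast_zero, mul_zero] at h3
      rw [h0, Nat.cast_zero] at h4
      linarith
    · exact_mod_cast h0
  -- the homomorphism to the quotient
  obtain ⟨L, hLt, hLof⟩ := gam_lift s
    ((QuotientGroup.mk' (Nul X)).comp (MonoidHom.pi a)) (QuotientGroup.mk' (Nul X) t0) (by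
      intro y
      rw [MonoidHom.comp_apply, MonoidHom.comp_apply, ← map_mul, ← map_mul, mk_eq_iff]
      refine squeeze_zero (fun n => Stab.hammingDist_nonneg _ _) (fun n => ?_)
        (tendsto_one_div_add_atTop_nhds_zero_nat (𝕜 := ℝ))
      refine le_of_mul_le_mul_right ?_ (hcard n)
      rw [hd_mul]
      refine le_trans (ct_mono fun x hx => ?_) (h1 n)
      exact ⟨y, hx⟩)
  choose φ hφ using fun g : Gam s => QuotientGroup.mk'_surjective (Nul X) (L g)
  obtain ⟨ψ, hψ⟩ := hS X (fun n g => φ g n) (by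
    intro g h
    have h3 := (mk_eq_iff (φ g * φ h) (φ (g * h))).1 (by
      rw [map_mul, hφ, hφ, hφ, map_mul])
    exact h3)
  have h3 : Tendsto (fun n => Stab.hammingDist (t0 n) (ψ n HNNExtension.t)) atTop (𝓝 0) := by
    have h4 := (mk_eq_iff t0 (φ HNNExtension.t)).1 (by rw [hφ, hLt])
    refine squeeze_zero (fun n => Stab.hammingDist_nonneg _ _)
      (fun n => Stab.hammingDist_triangle _ (φ HNNExtension.t n) _) ?_
    have := h4.add (hψ HNNExtension.t)
    rwa [add_zero] at this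
  have h5 : ∀ y, Tendsto (fun n => Stab.hammingDist (a n y) (ψ n (HNNExtension.of y))) atTop
      (𝓝 0) := by
    intro y
    have h4 := (mk_eq_iff (fun n => a n y) (φ (HNNExtension.of y))).1 (by
      rw [hφ, hLof]
      rfl)
    refine squeeze_zero (fun n => Stab.hammingDist_nonneg _ _)
      (fun n => Stab.hammingDist_triangle _ (φ (HNNExtension.of y) n) _) ?_
    have := h4.add (hψ (HNNExtension.of y))
    rwa [add_zero] at this
  have h6 : Tendsto (fun n => Stab.hammingDist (t0 n) (ψ n HNNExtension.t) +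
      ∑ y, Stab.hammingDist (a n y) (ψ n (HNNExtension.of y))) atTop (𝓝 0) := by
    have h7 := tendsto_finsetSum (Finset.univ : Finset F) fun y _ => h5 y
    have := h3.add h7
    rwa [Finset.sum_const_zero, add_zero] at this
  obtain ⟨n, hn⟩ := ((h6.eventually (gt_mem_nhds hε)).exists)
  have h8 := h2 n (ψ n)
  have h9 : ct (fun x => ψ n HNNExtension.t x ≠ t0 n x ∨
      ∃ y, ψ n (HNNExtension.of y) x ≠ a n y x) ≤
      (Stab.hammingDist (t0 n) (ψ n HNNExtension.t) +
        ∑ y, Stab.hammingDist (a n y) (ψ n (HNNExtension.of y))) * Fintype.card (X n) := by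
    refine (ct_or _ _).trans ?_
    rw [add_mul, Finset.sum_mul]
    refine add_le_add ?_ ((ct_ex _).trans (Finset.sum_le_sum fun y _ => ?_))
    · rw [hd_mul]
      exact ct_mono fun x hx => Ne.symm hx
    · rw [hd_mul]
      exact ct_mono fun x hx => Ne.symm hx
  have h10 := mul_lt_mul_of_pos_right hn (hcard n)
  linarith

end quant

/-! ### The main statement -/

theorem t_FINP (h : S_FIN) : S_FINP := by
  intro N _ S hS q m ε hq hε
  classical
  -- the finite quotient
  obtain ⟨Fb, hFb⟩ : ∃ Fb : Subgroup N, Fb = (S.f q).range := ⟨_, rfl⟩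
  have hmem : ∀ n, S.f q n ∈ Fb := fun n => by rw [hFb]; exact ⟨n, rfl⟩
  have hFW : ∀ y ∈ Fb, y ∈ S.W (-q) 0 := by
    intro y hy
    rw [hFb] at hy
    obtain ⟨n, rfl⟩ := hy
    exact hS.f_mem q n hq
  have hW := hS.fin (-q) 0
  have hfin : Finite Fb := Finite.of_injective
    (fun y : Fb => (⟨y.1, hFW y.1 y.2⟩ : S.W (-q) 0)) (by
      intro y z hyz
      exact Subtype.ext (congrArg (fun u : S.W (-q) 0 => (u : N)) hyz))
  have hid : ∀ y ∈ Fb, S.f q y = y := fun y hy => hS.f_id q y hq (hFW y hy)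
  -- the automorphism
  obtain ⟨sb0, hsb0⟩ : ∃ sb0 : Fb →* Fb, ∀ y, (sb0 y : N) = S.f q (S.σ y) :=
    ⟨((S.f q).comp (S.σ.toMonoidHom.comp Fb.subtype)).codRestrict Fb (fun y => hmem _),
      fun y => rfl⟩
  have hinj : Function.Injective sb0 := by
    rw [injective_iff_map_eq_one]
    intro y hy
    have h1 : S.f q (S.σ y) = 1 := by
      rw [← hsb0, hy]
      rfl
    have h2 := (hS.f_ker q y hq).1 h1
    rw [hid y y.2] at h2
    exact Subtype.ext h2
  have hbij := Finite.injective_iff_bijective.1 hinj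
  obtain ⟨s, hs⟩ : ∃ s : MulAut Fb, ∀ y, (s y : N) = S.f q (S.σ y) :=
    ⟨MulEquiv.ofBijective sb0 hbij, fun y => hsb0 y⟩
  obtain ⟨δ, hδ, hquant⟩ := quant s (hnn_fin h Fb ⊤ ⊤ _).1 (ε / 2) (by positivity)
  have iF : Fintype Fb := Fintype.ofFinite Fb
  have hc : (0 : ℝ) < Fintype.card Fb := by exact_mod_cast Fintype.card_pos
  refine ⟨max q m + 1, min (ε / 2) (δ * ε / Fintype.card Fb),
    lt_min (by positivity) (by positivity), ?_⟩
  intro w hw R hR X _ α t hA Y hY hK hYt
  have hwq : (q : ℤ) ≤ w := by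
    have := le_max_left q m
    omega
  have hwm : (m : ℤ) ≤ w := by
    have := le_max_right q m
    omega
  have hw1 : (1 : ℤ) ≤ w := by omega
  have hWR : ∀ n ∈ S.W (-w) w, n ∈ S.W (-R) R := fun n hn =>
    hS.mono _ _ _ _ (by omega) (by omega) hn
  have hFbw : ∀ y ∈ Fb, y ∈ S.W (-w) w := fun y hy =>
    hS.mono _ _ _ _ (by omega) (by omega) (hFW y hy)
  have h1 : α 1 = 1 := by
    have h2 := hA.mul 1 (one_mem _) 1 (one_mem _)
    rw [one_mul] at h2
    exact (left_eq_mul.1 h2)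
  have hfold : ∀ n ∈ S.W (-w) w, ∀ x, Y x → α n x = α (S.f q n) x := by
    intro n hn x hx
    have hf : S.f q n ∈ S.W (-w) w := hFbw _ (hmem n)
    have hk : (S.f q n)⁻¹ * n ∈ S.W (-w) w := mul_mem (inv_mem hf) hn
    have h2 := hK _ hk (by rw [map_mul, map_inv, hid _ (hmem n), inv_mul_cancel]) x hx
    have h3 := hA.mul (S.f q n) (hWR _ hf) _ (hWR _ hk)
    rw [mul_inv_cancel_left] at h3
    rw [h3, Perm.mul_apply, h2]
  have haY : ∀ y ∈ Fb, ∀ x, Y (α y x) ↔ Y x := by
    intro y hy x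
    constructor
    · intro h2
      have h3 := hY _ (inv_mem (hFbw y hy)) _ h2
      have h4 := hA.mul y⁻¹ (hWR _ (inv_mem (hFbw y hy))) y (hWR _ (hFbw y hy))
      rw [inv_mul_cancel, h1] at h4
      rw [← Perm.mul_apply, ← h4] at h3
      exact h3
    · exact hY y (hFbw y hy) x
  obtain ⟨a, ha⟩ : ∃ a : Fb →* Perm {x // Y x}, ∀ y x, (a y x).1 = α y x.1 := by
    refine ⟨MonoidHom.mk' (fun y => (α y.1).subtypePerm (haY y.1 y.2)) ?_, fun y x => rfl⟩
    intro y z
    ext x
    show α (y.1 * z.1) x.1 = α y.1 (α z.1 x.1)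
    rw [hA.mul _ (hWR _ (hFbw _ y.2)) _ (hWR _ (hFbw _ z.2))]
    rfl
  obtain ⟨t0, ht0⟩ := exists_ext' t Y
  have iX : Fintype {x // Y x} := Fintype.ofFinite _
  have hXn : (0 : ℝ) ≤ Fintype.card X := Nat.cast_nonneg _
  by_cases hsmall : ct Y ≤ ε * Fintype.card X
  · refine ⟨1, fun g x _ => rfl, ?_⟩
    exact (ct_mono fun x hx => hx.1).trans hsmall
  push Not at hsmall
  have hη1 : ct (fun x => Y x ∧ ¬ Y (t x)) ≤ ε / 2 * Fintype.card X :=
    hYt.trans (mul_le_mul_of_nonneg_right (min_le_left _ _) hXn)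
  have hη2 : ct (fun x => Y x ∧ ¬ Y (t x)) ≤ δ * ε / Fintype.card Fb * Fintype.card X :=
    hYt.trans (mul_le_mul_of_nonneg_right (min_le_right _ _) hXn)
  -- few bad points
  have hbad : ct (fun x : {x // Y x} => ∃ y, t0 (a y x) ≠ a (s y) (t0 x)) ≤
      δ * Fintype.card {x // Y x} := by
    have e1 : ∀ x : {x // Y x}, (∃ y, t0 (a y x) ≠ a (s y) (t0 x)) →
        ∃ y : Fb, ¬ Y (t (a y x).1) := by
      rintro x ⟨y, hy⟩
      by_contra hcon
      push Not at hcon
      apply hy
      apply Subtype.ext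
      have h2 := ht0 (a y x) (hcon y)
      have h3 : Y (t x.1) := by
        have := hcon 1
        rw [map_one] at this
        exact this
      have h4 := ht0 x h3
      rw [h2, ha, ha, h4, hs]
      have h5 : y.1 ∈ S.W (-R) (R - 1) := hS.mono _ _ _ _ (by omega) (by omega) (hFW _ y.2)
      have h6 := hA.rel y.1 h5
      have h7 : t (α y.1 x.1) = α (S.σ y.1) (t x.1) := congrArg (fun p : Perm X => p x.1) h6
      rw [h7]
      refine hfold _ ?_ (t x.1) h3
      have h8 := (hS.shift (-q) 0 y.1).2 (hFW _ y.2)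
      exact hS.mono _ _ _ _ (by omega) (by omega) h8
    refine (ct_mono e1).trans ((ct_ex _).trans ?_)
    have e2 : ∀ y : Fb, ct (fun x : {x // Y x} => ¬ Y (t (a y x).1)) =
        ct (fun x => Y x ∧ ¬ Y (t x)) := by
      intro y
      rw [ct_perm (a y) (fun z : {x // Y x} => ¬ Y (t z.1))]
      exact ct_sub Y (fun x => ¬ Y (t x))
    rw [Finset.sum_congr rfl fun y _ => e2 y, Finset.sum_const, Finset.card_univ, nsmul_eq_mul,
      card_sub Y]
    calc (Fintype.card Fb : ℝ) * ct (fun x => Y x ∧ ¬ Y (t x))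
        ≤ Fintype.card Fb * (δ * ε / Fintype.card Fb * Fintype.card X) :=
          mul_le_mul_of_nonneg_left hη2 hc.le
      _ = δ * (ε * Fintype.card X) := by field_simp
      _ ≤ δ * ct Y := mul_le_mul_of_nonneg_left hsmall.le hδ.le
  obtain ⟨θ, hθ⟩ := hquant {x // Y x} a t0 hbad
  obtain ⟨L, hLt, hLn⟩ := exists_lift S
    ((HNNExtension.of : Fb →* Gam s).comp ((S.f q).codRestrict Fb hmem)) HNNExtension.t (by
      intro n
      rw [MonoidHom.comp_apply, gam_rel, MonoidHom.comp_apply]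
      congr 2
      apply Subtype.ext
      rw [hs]
      show S.f q (S.σ (S.f q n)) = S.f q (S.σ n)
      have h2 : S.f q (n⁻¹ * S.f q n) = 1 := by
        rw [map_mul, map_inv, hid _ (hmem n), inv_mul_cancel]
      have h3 := (hS.f_ker q _ hq).2 h2
      rw [map_mul, map_mul, map_inv, map_inv] at h3
      exact (inv_mul_eq_one.1 h3).symm)
  refine ⟨(Perm.ofSubtype (p := Y)).comp (θ.comp L),
    fun g x hx => Perm.ofSubtype_apply_of_not_mem _ hx, ?_⟩
  obtain ⟨bX, hbX⟩ : ∃ bX : X → Prop, ∀ x, bX x ↔ ∀ hx : Y x,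
      θ HNNExtension.t ⟨x, hx⟩ ≠ t0 ⟨x, hx⟩ ∨
        ∃ y, θ (HNNExtension.of y) ⟨x, hx⟩ ≠ a y ⟨x, hx⟩ := ⟨_, fun x => Iff.rfl⟩
  have e3 : ct (fun x => Y x ∧ bX x) ≤ ε / 2 * ct Y := by
    rw [← ct_sub, ← card_sub Y]
    refine (ct_mono fun x hx => ?_).trans hθ
    exact (hbX x.1).1 hx x.2
  have e4 : ct (fun x => Y x ∧ (((Perm.ofSubtype (p := Y)).comp (θ.comp L)) (tt S) x ≠ t x ∨
      ∃ n ∈ S.W (-m) m, ((Perm.ofSubtype (p := Y)).comp (θ.comp L)) (inn S n) x ≠ α n x)) ≤
      ct (fun x => (Y x ∧ bX x) ∨ (Y x ∧ ¬ Y (t x))) := by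
    refine ct_mono ?_
    rintro x ⟨hx, h2⟩
    by_contra hcon
    push Not at hcon
    obtain ⟨h3, h4⟩ := hcon
    have h5 := h3 hx
    rw [hbX] at h5
    push Not at h5
    obtain ⟨_, h6, h7⟩ := h5
    have h8 := h4 hx
    rcases h2 with h2 | ⟨n, hn, h2⟩
    · apply h2
      rw [MonoidHom.comp_apply, MonoidHom.comp_apply, hLt, Perm.ofSubtype_apply_of_mem _ hx, h6]
      exact ht0 ⟨x, hx⟩ h8
    · apply h2
      rw [MonoidHom.comp_apply, MonoidHom.comp_apply, hLn, Perm.ofSubtype_apply_of_mem _ hx,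
        MonoidHom.comp_apply, h7, ha]
      exact (hfold n (hS.mono _ _ _ _ (by omega) (by omega) hn) x hx).symm
  have e5 := ct_or (fun x => Y x ∧ bX x) (fun x => Y x ∧ ¬ Y (t x))
  have e6 := mul_le_mul_of_nonneg_left (ct_le_card Y) (by positivity : (0 : ℝ) ≤ ε / 2)
  linarith

end Pool.Agent.N346.AS
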